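import Pool.Agent.H852R2.TE.Defs
import Pool.Agent.H469R2.TE.EXPOB2
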