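import Pool.Agent.H852R2.TE.Defs
import Pool.Agent.H375R2.TE.TRE
import Pool.Agent.H196R2.TE.ZE

namespace TE852
open RC14 RC852 Finset Filter Equiv

/-- the new letters `z` are good with probability `1 - 1/n` -/
theorem ZE (δ s : ℝ) (hδ : 0 < δ) (hδ1 : δ ≤ 1 / 16) (hs : 0 ≤ s) (hs1 : s + 3 * δ ≤ 1)
    (q' : ℕ) (hq' : 100 / δ ≤ q') :
    ∀ᶠ n : ℕ in atTop, ∀ (a q M d : ℕ) (x : Fin a → Alt n) (b : Fin q → Alt n), 1 ≤ a → 1 ≤ q →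
    d ≤ M → NF M d ≤ (n : ℝ) ^ (δ / 20000 * Rr s n) → GoodE δ s (gx (lz x) M) (cb b) →
    (Nat.card {z : Fin q' → Alt n // ¬ ∀ j, Rr s n ≤ j → j ≤ Rr (s + δ) n → ∀ v ∈ Lvl j n,
        1 / (16 * (q' : ℝ) ^ 2) * ‖v‖ ^ 2 ≤
          16 * (1 / (q : ℝ) * En (repA j n) b v +
            3 / 2 * ((M : ℝ) / (d + 1)) / a * En (repA j n) x v) + En (repA j n) z v} : ℝ) ≤
      1 / (n : ℝ) * (Fintype.card (Alt n) : ℝ) ^ q' :=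
  ZE_of δ s hδ hδ1 hs hs1 (TRE δ s hδ hδ1 hs hs1) q' hq'

end TE852
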