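import Pool.Agent.H852R2.TE.Defs
import Pool.Agent.H852R2.TE.S.MIXE
import Pool.Agent.H852R2.TE.S.BPARTE
import Pool.Agent.H852R2.TE.S.PARAM
import Pool.Agent.H852R2.TE.S.ZE
import Pool.Agent.H196R2.TE.ROUND

namespace TE852
open RC14 RC852 Finset Filter Equiv

/-- most `a`-tuples of even permutations have a spectral gap on all levels `≤ n^s` -/
def Hyp (s : ℝ) : Prop := ∃ a : ℕ, 1 ≤ a ∧ ∃ c : ℝ, 0 < c ∧ ∃ B : ℝ, 0 ≤ B ∧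
  ∀ᶠ n : ℕ in atTop, (Nat.card {x : Fin a → Alt n // ¬ Good1 n (Rr s n) c x} : ℝ) ≤
    B / (n : ℝ) * (Fintype.card (Alt n) : ℝ) ^ a

/-- one round: from the levels `≤ n^s` to the levels `≤ n^{s+δ}` -/
theorem ROUND (δ s : ℝ) (hδ : 0 < δ) (hδ1 : δ ≤ 1 / 16) (hs : 0 ≤ s) (hs1 : s + 3 * δ ≤ 1)
    (h : Hyp s) : Hyp (s + δ) :=
  ROUND_of (fun n r a h1 h2 c h3 x h4 M h5 => MIXE n r a h1 h2 c h3 x h4 M h5) BPARTE PARAM ZE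
    Hyp (fun _ => Iff.rfl) δ s hδ hδ1 hs hs1 h

end TE852
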